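import Mathlib
import Pool.Agent.H879.Neg.Genus
import Pool.Agent.H879.Nef.Square
import Pool.Agent.H879.RV.Adj
import Pool.Graph.R_seed8.TH442.NF.Fin
import Pool.Graph.R_seed8.TH603.Cut.Deg

set_option autoImplicit false

/-!
# Special nef classes are controlled by their tenth largest multiplicity

Let `P 1, …, P n`, `n ≥ 4`, be very general points of the complex projective plane and let `(d; w)` be a
nef class on the blow-up `X_n`. `NineAbove μ w`: at most nine of the multiplicities `w i` are larger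
than `μ`, so that the tenth largest multiplicity is at most `μ`; the NINE largest ones are arbitrary.

(1) `(d; w)` has nonnegative self-intersection, and finitely many reflections in classes
`H - E_i - E_j - E_k` carry it to a class `(d'; w')` with `d' ≤ d`, `w' ≤ w` which is standard: the sum of
any three of its multiplicities is at most `d'`.

Suppose that `(d; w)` is special, and let `(d'; w')` be any standard class to which it is carried. Then:

(2) for every `μ` such that at most nine of the `w' i` are larger than `μ`: `d' < 10 ^ 31 (μ + 1) ^ 14`;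
the degree and the positive multiplicities `w' i` belong to a finite set `S μ` which does not depend on the
number of the points; and if `I` contains the indices with `w' i > μ`, `|I| ≤ 9`, then
`∑_{i ∉ I} (w' i) ^ 2 ≤ d' ^ 2 - ∑_I (w' i) ^ 2 < 6 * 10 ^ 7 (μ + 1) ^ 2 (d' + μ + 2)`.

(3) For every set `I` of at most nine indices the virtual dimension of
`L = (d' + 3) H - ∑_{w' i ≥ 2} (w' i + 1) E_i` is negative, or
`3 (w' i + 1) ^ 2 > 7 (d' ^ 2 - ∑_{w' j ≥ 2} (w' j) ^ 2)` for some `i ∉ I` with `w' i ≥ 2`.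

(4) `(d'; w')` has no `Margin`: at no scale `μ` do the multiplicities larger than `μ` leave room in the
positive cone, up to a bounded change of the degree and a seventh of the square of the tenth
multiplicity.

So for every `μ` all nef classes with at most nine multiplicities larger than `μ` are non-special, with the
exception of those in the orbits of a finite set of standard classes.
-/

namespace Pool.Agent.Results.MP_0f5763_ag.NefTenthMultiplicity

open MvPolynomial Pool.Agent.TH442.NF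
open Pool.Agent.W609.CR (Van Ord aff)

/-- The homogeneous ideal of the point `(p 0 : p 1 : 1)`. -/
noncomputable def pt (p : Fin 2 → ℂ) : Ideal (MvPolynomial (Fin 3) ℂ) :=
  Ideal.span {X 0 - C (p 0) * X 2, X 1 - C (p 1) * X 2}

/-- The class `(d; w)` is nef at the points `P`: it meets every irreducible curve nonnegatively. An
irreducible curve other than the exceptional ones is given by an irreducible form `G` of degree `e`
with multiplicity exactly `u i` at `P i`. -/
def Nef {n : ℕ} (P : Fin n → Fin 2 → ℂ) (d : ℕ) (w : Fin n → ℕ) : Prop :=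
  ∀ (G : MvPolynomial (Fin 3) ℂ) (e : ℕ) (u : Fin n → ℕ), Irreducible G → G.IsHomogeneous e →
    (∀ i, G ∈ pt (P i) ^ (u i) ∧ G ∉ pt (P i) ^ (u i + 1)) → ∑ i, w i * u i ≤ d * e

/-- The linear system `(d; w)` at the points `P` is non-special: the space of forms of degree `d`
vanishing to order at least `w i` at `P i` has dimension
`max (0, (d + 1) (d + 2) / 2 - ∑ w i (w i + 1) / 2)`. -/
def NonSpecial {n : ℕ} (P : Fin n → Fin 2 → ℂ) (d : ℕ) (w : Fin n → ℕ) : Prop :=
  Module.finrank ℂ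
    ↥(homogeneousSubmodule (Fin 3) ℂ d ⊓
      Submodule.restrictScalars ℂ (⨅ i : Fin n, pt (P i) ^ (w i)))
  = Nat.choose (d + 2) 2 - ∑ i, Nat.choose (w i + 1) 2

/-- The reflection of the class `a = (d; w)`, `d H - ∑ w l E l`, in the class
`H - E (i 0) - E (i 1) - E (i 2)`: with `δ = d - w (i 0) - w (i 1) - w (i 2)`, the numbers
`d`, `w (i 0)`, `w (i 1)`, `w (i 2)` are increased by `δ`. -/
def reflect {n : ℕ} (i : Fin 3 → Fin n) (a : ℤ × (Fin n → ℤ)) : ℤ × (Fin n → ℤ) :=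
  (a.1 + (a.1 - a.2 (i 0) - a.2 (i 1) - a.2 (i 2)),
    fun l => a.2 l + if l = i 0 ∨ l = i 1 ∨ l = i 2 then a.1 - a.2 (i 0) - a.2 (i 1) - a.2 (i 2)
      else 0)

/-- Finitely many reflections carry `(d; w)` to `(d'; w')`. -/
def Carries {n : ℕ} (d : ℕ) (w : Fin n → ℕ) (d' : ℕ) (w' : Fin n → ℕ) : Prop :=
  Relation.ReflTransGen
    (fun a b : ℤ × (Fin n → ℤ) => ∃ i : Fin 3 → Fin n, Function.Injective i ∧ b = reflect i a)
    ((d : ℤ), fun l => (w l : ℤ)) ((d' : ℤ), fun l => (w' l : ℤ))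

/-- `Very n Q`: the statement `Q` holds for all `n`-tuples of points outside countably many
hypersurfaces. -/
def Very (n : ℕ) (Q : (Fin n → Fin 2 → ℂ) → Prop) : Prop :=
  ∃ F : ℕ → MvPolynomial (Fin n × Fin 2) ℂ, (∀ j, F j ≠ 0) ∧ ∀ P : Fin n → Fin 2 → ℂ,
    (∀ j, MvPolynomial.eval (fun ij : Fin n × Fin 2 => P ij.1 ij.2) (F j) ≠ 0) → Q P

/-- The degree is at least the sum of any three multiplicities. -/
def Standard {n : ℕ} (d : ℕ) (w : Fin n → ℕ) : Prop :=
  ∀ i j l : Fin n, i ≠ j → i ≠ l → j ≠ l → w i + w j + w l ≤ d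

/-- At most nine of the multiplicities are larger than `b`. -/
def NineAbove {n : ℕ} (b : ℕ) (w : Fin n → ℕ) : Prop :=
  (Finset.univ.filter fun i => b < w i).card ≤ 9

/-- The degree and the multiset of the positive multiplicities. -/
def type {n : ℕ} (d : ℕ) (w : Fin n → ℕ) : ℕ × Multiset ℕ :=
  (d, (Finset.univ.val.map w).filter (fun x => x ≠ 0))

/-- The multiplicities larger than `μ` (the others are replaced by zero). -/
def large {n : ℕ} (w : Fin n → ℕ) (μ : ℕ) : Fin n → ℕ := fun i => if μ < w i then w i else 0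

/-- The self-intersection of the class `D H - ∑ v i E i`. -/
def self {n : ℕ} (D : ℕ) (v : Fin n → ℕ) : ℝ := (D : ℝ) ^ 2 - ∑ i, (v i : ℝ) ^ 2

/-- The sum of the squares of the `v j < v i` with `j ∉ S`. -/
noncomputable def below {n : ℕ} (S : Finset (Fin n)) (v : Fin n → ℕ) (i : Fin n) : ℝ :=
  ∑ j, if j ∉ S ∧ v j < v i then (v j : ℝ) ^ 2 else 0

/-- The sum of the squares of the `v j ≥ v i` with `j ∉ S`. -/
noncomputable def atLeast {n : ℕ} (S : Finset (Fin n)) (v : Fin n → ℕ) (i : Fin n) : ℝ :=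
  ∑ j, if j ∉ S ∧ v i ≤ v j then (v j : ℝ) ^ 2 else 0

/-- The condition on the multiplicities `v i` outside of a set `S` of at most nine indices. -/
def Tail {n : ℕ} (S : Finset (Fin n)) (D : ℕ) (v : Fin n → ℕ) : Prop :=
  S.card ≤ 9 ∧ ∀ i, i ∉ S → (v i : ℝ) ^ 2 ≤ 7 * self D v ∨
    (v i : ℝ) ^ 2 ≤ 4 * (self D v + below S v i) ∨
    (S.card = 9 ∧ 2 * (v i : ℝ) * atLeast S v i ≤ D * (self D v + below S v i))

/-- The multiplicities larger than `μ` leave a margin `T`. -/
def Margin {n : ℕ} (d : ℕ) (w : Fin n → ℕ) : Prop :=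
  ∃ (μ T D : ℕ) (S : Finset (Fin n)), d = D + T ∧ 2 ^ 43 * (μ + 1) ^ 11 ≤ T ∧
    2 ^ 14 * (μ + 1) ^ 3 * ∑ i, large w μ i ≤ T * D ∧
    Standard D (large w μ) ∧ ∑ i, large w μ i ^ 2 ≤ D ^ 2 ∧ Tail S D (large w μ)

theorem tail_iff {n : ℕ} {S : Finset (Fin n)} {D : ℕ} {v : Fin n → ℕ} (h : Tail S D v) :
    H879.RV.Tail S (D : ℝ) (fun i => (v i : ℝ)) := by
  refine ⟨h.1, fun i hi => ?_⟩
  have e1 : below S v i = Pool.Agent.K4H28.TC.below S (fun i => (v i : ℝ)) i := by
    unfold below Pool.Agent.K4H28.TC.below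
    refine Finset.sum_congr rfl fun j _ => ?_
    by_cases hj : j ∉ S ∧ v j < v i
    · have h2 : (v j : ℝ) < v i := by exact_mod_cast hj.2
      rw [if_pos hj, if_pos ⟨hj.1, h2⟩]
    · have h2 : ¬ (j ∉ S ∧ (v j : ℝ) < v i) := fun h' => hj ⟨h'.1, by
        have h3 := h'.2
        exact_mod_cast h3⟩
      rw [if_neg hj, if_neg h2]
  have e2 : atLeast S v i = Pool.Agent.K4H28.TC.above S (fun i => (v i : ℝ)) i := by
    unfold atLeast Pool.Agent.K4H28.TC.above
    refine Finset.sum_congr rfl fun j _ => ?_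
    by_cases hj : j ∉ S ∧ v i ≤ v j
    · have h2 : (v i : ℝ) ≤ v j := by exact_mod_cast hj.2
      rw [if_pos hj, if_pos ⟨hj.1, h2⟩]
    · have h2 : ¬ (j ∉ S ∧ (v i : ℝ) ≤ v j) := fun h' => hj ⟨h'.1, by
        have h3 := h'.2
        exact_mod_cast h3⟩
      rw [if_neg hj, if_neg h2]
  have h1 := h.2 i hi
  rw [e1, e2] at h1
  exact h1

theorem margin_iff {n d : ℕ} {w : Fin n → ℕ} (h : Margin d w) : H879.RV.Margin d w := by
  obtain ⟨μ, T, D, S, hd, hT1, hT2, hstd, hD0, hS⟩ := h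
  have e43 : (2 : ℕ) ^ 43 = 8796093022208 := by norm_num
  have e14 : (2 : ℕ) ^ 14 = 16384 := by norm_num
  rw [e43] at hT1
  rw [e14] at hT2
  exact ⟨μ, T, D, S, hd, hT1, hT2, hstd, hD0, tail_iff hS⟩

/-- Every nef class is carried to a standard one with smaller multiplicities. -/
theorem nef_std {K : Type} [Field K] [CharZero K] {n : ℕ} : ∀ (d : ℕ) {w : Fin n → ℕ}
    {P : Fin n → Fin 2 → K}, AlgebraicIndependent ℚ (fun ij : Fin n × Fin 2 => P ij.1 ij.2) →
    NefAt P d w → ∃ (d' : ℕ) (w' : Fin n → ℕ),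
      Relation.ReflTransGen Step (cls d w) (cls d' w') ∧ Standard d' w' ∧ d' ≤ d ∧
        ∀ i, w' i ≤ w i := by
  intro d
  induction d using Nat.strong_induction_on with
  | _ d ih =>
    intro w P hP hN
    by_cases hs : Standard d w
    · exact ⟨d, w, Relation.ReflTransGen.refl, hs, le_rfl, fun _ => le_rfl⟩
    · unfold Standard at hs
      push Not at hs
      obtain ⟨i, j, k, hij, hik, hjk, h⟩ := hs
      have hinj : Function.Injective (![i, j, k] : Fin 3 → Fin n) := by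
        intro a b hab
        fin_cases a <;> fin_cases b <;> simp_all
      have hst : Relation.ReflTransGen Step (cls d w) (refl ![i, j, k] (cls d w)) :=
        Relation.ReflTransGen.single ⟨![i, j, k], hinj, rfl⟩
      obtain ⟨P', d1, w1, hP', hN', he, -, -⟩ := chain hP hN hst
      have h1 : ((d1 : ℕ) : ℤ) = (d : ℤ) + ((d : ℤ) - w i - w j - w k) := by
        have h2 := congrArg Prod.fst he
        exact h2.symm
      have h3 : d1 < d := by omega
      have h4 : ∀ l, w1 l ≤ w l := by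
        intro l
        have h2 := congrFun (congrArg Prod.snd he) l
        have h5 : ((w1 l : ℕ) : ℤ) = (w l : ℤ) + if l = i ∨ l = j ∨ l = k then
          (d : ℤ) - w i - w j - w k else 0 := h2.symm
        split_ifs at h5 <;> omega
      obtain ⟨d', w', h6, h7, h8, h9⟩ := ih d1 h3 hP' hN'
      rw [he] at hst
      exact ⟨d', w', hst.trans h6, h7, by omega, fun l => (h9 l).trans (h4 l)⟩

/-- A nef class has nonnegative self-intersection. -/
theorem nef_sq {n : ℕ} {P : Fin n → Fin 2 → ℂ} {d : ℕ} {w : Fin n → ℕ} (h : NefAt P d w) :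
    ∑ i, w i ^ 2 ≤ d ^ 2 := by
  have h1 := H879.Nef.sq_of_nef (P := P) (x := fun i => (w i : ℝ)) (c := (d : ℝ))
    (fun i => Nat.cast_nonneg _) (fun F e v hF0 hF hv => ?_)
  · exact_mod_cast h1
  · refine Pool.Agent.K4H28.TC.form_of_irr (p := P) (fun i => Nat.cast_nonneg _)
      (fun G e' u g1 g2 g3 => ?_) F hF0 e v hF hv
    have h2 := h G e' u g1 g2 g3
    unfold Pool.Agent.TH167.SH.ip at h2
    have h3 : ∑ i, (w i : ℤ) * (u i : ℤ) ≤ (d : ℤ) * e' := by linarith
    exact_mod_cast h3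

theorem result : ∃ S : ℕ → Finset (ℕ × Multiset ℕ), ∀ n : ℕ, 4 ≤ n → Very n fun P =>
    ∀ (d : ℕ) (w : Fin n → ℕ), Nef P d w →
      -- (1)
      (∑ i, w i ^ 2 ≤ d ^ 2 ∧ ∃ (d' : ℕ) (w' : Fin n → ℕ), Carries d w d' w' ∧ Standard d' w' ∧
        d' ≤ d ∧ ∀ i, w' i ≤ w i) ∧
      ∀ (d' : ℕ) (w' : Fin n → ℕ), Carries d w d' w' → Standard d' w' → ¬ NonSpecial P d w →
        -- (2)
        (∀ μ : ℕ, NineAbove μ w' → d' < 10 ^ 31 * (μ + 1) ^ 14 ∧ type d' w' ∈ S μ ∧
          ∀ I : Finset (Fin n), I.card ≤ 9 → (∀ i, i ∉ I → w' i ≤ μ) →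
            ∑ i ∈ Iᶜ, (w' i : ℤ) ^ 2 ≤ (d' : ℤ) ^ 2 - ∑ i ∈ I, (w' i : ℤ) ^ 2 ∧
            (d' : ℤ) ^ 2 - ∑ i ∈ I, (w' i : ℤ) ^ 2 <
              6 * 10 ^ 7 * ((μ : ℤ) + 1) ^ 2 * (d' + μ + 2)) ∧
        -- (3)
        (∀ I : Finset (Fin n), I.card ≤ 9 →
          (d' + 3) * (d' + 6) < ∑ i, (if 2 ≤ w' i then (w' i + 1) * (w' i + 2) else 0) ∨
          ∃ i, i ∉ I ∧ 2 ≤ w' i ∧
            7 * d' ^ 2 < 3 * (w' i + 1) ^ 2 + 7 * ∑ j, (if 2 ≤ w' j then w' j ^ 2 else 0)) ∧
        -- (4)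
        ¬ Margin d' w' := by
  classical
  have hNef : ∀ {n : ℕ} {P : Fin n → Fin 2 → ℂ} {d : ℕ} {w : Fin n → ℕ}, Nef P d w →
      NefAt P d w := by
    intro n P d w h
    rw [nefAt_iff]
    intro G e u hG
    have h1 := h G e u hG.irreducible hG.homogeneous hG.mult
    unfold Pool.Agent.TH167.SHDefs.inter
    have h2 : ((∑ i, w i * u i : ℕ) : ℤ) ≤ ((d * e : ℕ) : ℤ) := by exact_mod_cast h1
    push_cast at h2
    omega
  refine ⟨fun b => (H879.Star.finite_rem b).toFinset, fun n hn => ?_⟩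
  obtain ⟨F, hF, hF'⟩ := Pool.Agent.TH603.Cut.exists_family (Fin n × Fin 2)
  refine ⟨F, hF, fun P hP d w hN => ⟨⟨nef_sq (hNef hN), nef_std d (hF' _ hP) (hNef hN)⟩,
    fun d' w' hc hs hsp => ?_⟩⟩
  have hG : ¬ Pool.Agent.Q310.FP.GE d' w' := fun hG =>
    hsp (of_chain (hF' _ hP) (hNef hN) hc fun P' hP' => hG ℂ P' hP')
  have hset : ∀ (μ : ℕ) (i : Fin n), i ∉ (Finset.univ.filter fun i => μ < w' i) → w' i ≤ μ := by
    intro μ i hi
    rw [Finset.mem_filter, not_and] at hi
    have := hi (Finset.mem_univ i)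
    omega
  have hsq : ∑ i, w' i ^ 2 ≤ d' ^ 2 := by
    obtain ⟨P', d1, w1, hP', hN', he, -, -⟩ := chain (hF' _ hP) (hNef hN) hc
    obtain ⟨rfl, rfl⟩ := cls_inj he
    exact nef_sq hN'
  refine ⟨fun μ hμ => ⟨?_, ?_, fun I hI hIμ => ⟨?_, ?_⟩⟩, fun I hI => ?_,
    fun hM => hG (H879.RV.ge_margin hn (margin_iff hM))⟩
  · by_contra hcon
    push Not at hcon
    have e31 : (10 : ℕ) ^ 31 = 10000000000000000000000000000000 := by norm_num
    rw [e31] at hcon
    exact hG (H879.Star.ge_star hn hs hμ (hset μ) hcon)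
  · rw [Set.Finite.mem_toFinset]
    exact ⟨n, w', hn, rfl, hs, hμ, hG⟩
  · have h1 : ∑ i, (w' i : ℤ) ^ 2 ≤ (d' : ℤ) ^ 2 := by exact_mod_cast hsq
    have h2 := Finset.sum_add_sum_compl I fun i => (w' i : ℤ) ^ 2
    linarith
  · have h2 := H879.Neg.room_small hn hs hI hIμ hG
    have h3 := H879.Neg.sum_nine hn hs hI
    have e1 : ∑ i ∈ I, (w' i : ℤ) * (w' i + 1) =
        ∑ i ∈ I, (w' i : ℤ) ^ 2 + ((∑ i ∈ I, w' i : ℕ) : ℤ) := by
      push_cast
      rw [← Finset.sum_add_distrib]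
      exact Finset.sum_congr rfl fun i _ => by ring
    have h3' : ((∑ i ∈ I, w' i : ℕ) : ℤ) ≤ 3 * d' := by exact_mod_cast h3
    rw [e1] at h2
    calc (d' : ℤ) ^ 2 - ∑ i ∈ I, (w' i : ℤ) ^ 2
        < 60000000 * (((μ : ℤ) + 1) ^ 2 * (d' + μ + 2)) := by linarith
      _ = 6 * 10 ^ 7 * ((μ : ℤ) + 1) ^ 2 * (d' + μ + 2) := by ring
  · by_contra hcon
    push Not at hcon
    refine hG (H879.RV.ge_clean hn hs hI hcon.1 fun i hi h2 => ?_)
    exact hcon.2 i hi h2

end Pool.Agent.Results.MP_0f5763_ag.NefTenthMultiplicity
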